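import Pool.Agent.H602.MD.Model

/-!
# Models in groups with torsion: the reduction to the torsion-free part
-/

set_option autoImplicit false

open Finset
open scoped Pointwise

namespace Pool.Agent.H602.GM

open Pool.Agent.H602.MD

/-- Plünnecke's inequality -/
theorem prG {G : Type*} [AddCommGroup G] [DecidableEq G] {S : Finset G} (hS : S.Nonempty) {K : ℝ}
    (hK : ((S + S).card : ℝ) ≤ K * S.card) (m n : ℕ) :
    ((m • S - n • S).card : ℝ) ≤ K ^ (m + n) * S.card := by
  have h1 := pluennecke_ruzsa_inequality_nsmul_sub_nsmul_add hS S m n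
  have h2 : ((m • S - n • S).card : ℝ) ≤ (((S + S).card : ℝ) / S.card) ^ (m + n) * S.card := by
    have : (((m • S - n • S).card : ℚ≥0) : ℝ) ≤
        (((((S + S).card : ℚ≥0) / (S.card : ℚ≥0)) ^ (m + n) * (S.card : ℚ≥0) : ℚ≥0) : ℝ) := by
      exact_mod_cast h1
    push_cast at this
    exact this
  have hSpos : (0 : ℝ) < S.card := by exact_mod_cast hS.card_pos
  refine h2.trans (mul_le_mul_of_nonneg_right (pow_le_pow_left₀ (by positivity) ?_ _) hSpos.le)
  rw [div_le_iff₀ hSpos]
  exact hK

/-- the doubling of a projection -/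
theorem proj_doubling {F T : Type*} [AddCommGroup F] [AddCommGroup T] [DecidableEq F]
    [DecidableEq T] {A : Finset (F × T)} (hA : A.Nonempty) {K : ℝ}
    (hK : ((A + A).card : ℝ) ≤ K * A.card) :
    ((A.image Prod.fst + A.image Prod.fst).card : ℝ) ≤ K ^ 3 * (A.image Prod.fst).card := by
  classical
  obtain ⟨x₀, hx₀, hmax⟩ := exists_max_image (A.image Prod.fst)
    (fun b => (A.filter (fun a => a.1 = b)).card) (hA.image _)
  set N := (A.filter (fun a => a.1 = x₀)).card with hN
  have hAN : A.card ≤ N * (A.image Prod.fst).card :=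
    card_le_mul_card_image A N fun b hb => hmax b hb
  have hNpos : 0 < N := by
    obtain ⟨a, ha, hax⟩ := mem_image.1 hx₀
    exact card_pos.2 ⟨a, mem_filter.2 ⟨ha, hax⟩⟩
  have hch : ∀ z : F, ∃ w : F × T, z ∈ A.image Prod.fst + A.image Prod.fst →
      w ∈ A + A ∧ w.1 = z := by
    intro z
    by_cases hz : z ∈ A.image Prod.fst + A.image Prod.fst
    · obtain ⟨x, hx, y, hy, hxy⟩ := mem_add.1 hz
      obtain ⟨a, ha, rfl⟩ := mem_image.1 hx
      obtain ⟨b, hb, rfl⟩ := mem_image.1 hy
      exact ⟨a + b, fun _ => ⟨add_mem_add ha hb, hxy⟩⟩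
    · exact ⟨0, fun h => absurd h hz⟩
  choose c hc using hch
  have h1 : ((A.image Prod.fst + A.image Prod.fst) ×ˢ (A.filter (fun a => a.1 = x₀))).card ≤
      (3 • A - 0 • A).card := by
    refine card_le_card_of_injOn (fun z => c z.1 + z.2) ?_ ?_
    · rintro ⟨z, a⟩ hz
      rw [mem_coe, mem_product] at hz
      obtain ⟨hz1, hz2⟩ := hz
      rw [mem_coe, zero_nsmul, sub_zero, show (3 : ℕ) = 2 + 1 from rfl, succ_nsmul, two_nsmul]
      exact add_mem_add (hc z hz1).1 (mem_filter.1 hz2).1
    · rintro ⟨z, a⟩ hz ⟨z', a'⟩ hz' he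
      rw [mem_coe, mem_product] at hz hz'
      simp only at he hz hz'
      have h2 := congrArg Prod.fst he
      rw [Prod.fst_add, Prod.fst_add, (hc z hz.1).2, (hc z' hz'.1).2, (mem_filter.1 hz.2).2,
        (mem_filter.1 hz'.2).2] at h2
      have h3 : z = z' := add_right_cancel h2
      subst h3
      rw [Prod.mk.injEq]
      exact ⟨rfl, add_left_cancel he⟩
  rw [card_product] at h1
  have h2 := prG hA hK 3 0
  have h3 : (((A.image Prod.fst + A.image Prod.fst).card * N : ℕ) : ℝ) ≤ K ^ 3 * A.card := by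
    refine le_trans ?_ h2
    exact_mod_cast h1
  have hK1 : 1 ≤ K := one_le_K hA hK
  have h4 : K ^ 3 * (A.card : ℝ) ≤ K ^ 3 * (A.image Prod.fst).card * N := by
    have : (A.card : ℝ) ≤ N * (A.image Prod.fst).card := by exact_mod_cast hAN
    calc K ^ 3 * (A.card : ℝ) ≤ K ^ 3 * (N * (A.image Prod.fst).card) := by gcongr
      _ = K ^ 3 * (A.image Prod.fst).card * N := by ring
  push_cast at h3
  have hNR : (0 : ℝ) < N := by exact_mod_cast hNpos
  exact le_of_mul_le_mul_right (h3.trans h4) hNR

/-- idempotents modulo a squarefree number -/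
theorem exists_idem {q : ℕ} (hq : Squarefree q) :
    ∃ c : ℕ → ℤ, (∀ p ∈ q.primeFactors, (p : ℤ) ∣ c p - 1 ∧ (q : ℤ) ∣ p * c p ∧
      ∀ r ∈ q.primeFactors, r ≠ p → (p : ℤ) ∣ c r) ∧ (q : ℤ) ∣ ∑ p ∈ q.primeFactors, c p - 1 := by
  classical
  have hq0 : q ≠ 0 := hq.ne_zero
  have hex : ∀ p : ℕ, ∃ c : ℤ, p ∈ q.primeFactors → (p : ℤ) ∣ c - 1 ∧ ((q / p : ℕ) : ℤ) ∣ c := by
    intro p
    by_cases hp : p ∈ q.primeFactors
    · have hpp := Nat.prime_of_mem_primeFactors hp
      have hpd := Nat.dvd_of_mem_primeFactors hp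
      have hcop : Nat.Coprime p (q / p) := by
        rw [hpp.coprime_iff_not_dvd]
        intro h
        have h1 : p * p ∣ q := by
          obtain ⟨a, ha⟩ := h
          refine ⟨a, ?_⟩
          rw [mul_assoc, ← ha, Nat.mul_div_cancel' hpd]
        exact hpp.one_lt.ne' (Nat.isUnit_iff.1 (hq p h1))
      have h2 : IsCoprime (p : ℤ) ((q / p : ℕ) : ℤ) := Nat.isCoprime_iff_coprime.2 hcop
      obtain ⟨a, b, hab⟩ := h2
      refine ⟨b * ((q / p : ℕ) : ℤ), fun _ => ⟨⟨-a, ?_⟩, Dvd.intro_left _ rfl⟩⟩
      linarith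
    · exact ⟨0, fun h => absurd h hp⟩
  choose c hc using hex
  have h1 : ∀ p ∈ q.primeFactors, ∀ r ∈ q.primeFactors, r ≠ p → (p : ℤ) ∣ c r := by
    intro p hp r hr hrp
    refine dvd_trans ?_ (hc r hr).2
    have hpp := Nat.prime_of_mem_primeFactors hp
    have hrp' := Nat.prime_of_mem_primeFactors hr
    have hpd := Nat.dvd_of_mem_primeFactors hp
    have hrd := Nat.dvd_of_mem_primeFactors hr
    have h2 : p ∣ r * (q / r) := by rw [Nat.mul_div_cancel' hrd]; exact hpd
    have h3 : p ∣ q / r := by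
      rcases (Nat.Prime.dvd_mul hpp).1 h2 with h | h
      · exact absurd ((Nat.prime_dvd_prime_iff_eq hpp hrp').1 h).symm hrp
      · exact h
    exact_mod_cast h3
  refine ⟨c, fun p hp => ⟨(hc p hp).1, ?_, h1 p hp⟩, ?_⟩
  · have hpd := Nat.dvd_of_mem_primeFactors hp
    have h2 : (q : ℤ) = (p : ℤ) * ((q / p : ℕ) : ℤ) := by
      exact_mod_cast (Nat.mul_div_cancel' hpd).symm
    rw [h2]
    exact mul_dvd_mul_left _ (hc p hp).2
  · rw [Int.natCast_dvd]
    have h3 : ∏ p ∈ q.primeFactors, p ∣ (∑ p ∈ q.primeFactors, c p - 1).natAbs := by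
      refine Finset.prod_primes_dvd _ (fun p hp => (Nat.prime_of_mem_primeFactors hp).prime) ?_
      intro p hp
      rw [← Int.natCast_dvd, ← add_sum_erase _ _ hp]
      have e : c p + ∑ x ∈ q.primeFactors.erase p, c x - 1 =
          (c p - 1) + ∑ x ∈ q.primeFactors.erase p, c x := by ring
      rw [e]
      refine dvd_add (hc p hp).1 (dvd_sum fun r hr => ?_)
      rw [mem_erase] at hr
      exact h1 p hp r hr.2 hr.1
    rwa [Nat.prod_primeFactors_of_squarefree hq] at h3


/-- killing the part of the torsion which the set does not see -/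
theorem quot_card {F T : Type*} [AddCommGroup F] [AddCommGroup T] [Finite T] [DecidableEq F]
    [DecidableEq T] {A : Finset (F × T)} (hA : A.Nonempty) {K : ℝ}
    (hK : ((A + A).card : ℝ) ≤ K * A.card) (n : ℕ) {q : ℕ} (hq : Squarefree q) :
    ∃ L : AddSubgroup T, (∀ d : T, ((0 : F), d) ∈ n • A - n • A → d ∈ L → d = 0) ∧
      (Nat.card (T ⧸ L) : ℝ) * (A.image Prod.fst).card ≤
        Nat.card (nsmulAddMonoidHom q : T →+ T).range * q *
          (K ^ (2 * n * q.primeFactors.card + 1) * A.card) := by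
  classical
  have hq0 : 0 < q := Nat.pos_of_ne_zero hq.ne_zero
  obtain ⟨c, hc, hcs⟩ := exists_idem hq
  set Tq : AddSubgroup T := (nsmulAddMonoidHom q : T →+ T).ker with hTq
  set P : AddSubgroup T → Prop := fun L =>
    L ≤ Tq ∧ ∀ d : T, ((0 : F), d) ∈ n • A - n • A → d ∈ L → d = 0 with hP
  obtain ⟨L, hL⟩ := (Set.toFinite {L | P L}).exists_maximal
    ⟨⊥, bot_le, fun d _ hd => (AddSubgroup.mem_bot).1 hd⟩
  have hLP : P L := hL.1
  obtain ⟨hLq, hLd⟩ := hLP
  refine ⟨L, hLd, ?_⟩
  have hmemTq : ∀ t : T, t ∈ Tq ↔ q • t = 0 := fun t => Iff.rfl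
  -- the elements of prime order
  have key : ∀ (p : ℕ), p ∈ q.primeFactors → ∀ u : T, q • u = 0 → p • u ∈ L →
      ∃ (d : T) (j : ℤ), ((0 : F), d) ∈ n • A - n • A ∧ q • d = 0 ∧ p • d ∈ L ∧
        u - j • d ∈ L := by
    intro p hp u hu hpu
    have hpp := Nat.prime_of_mem_primeFactors hp
    by_cases huL : u ∈ L
    · refine ⟨0, 0, ?_, ?_, ?_, ?_⟩
      · rw [show ((0 : F), (0 : T)) = (0 : F × T) from rfl]
        obtain ⟨x, hx⟩ : (n • A).Nonempty := hA.nsmul
        rw [← sub_self x]
        exact sub_mem_sub hx hx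
      · rw [smul_zero]
      · rw [smul_zero]
        exact L.zero_mem
      · rwa [zero_smul, sub_zero]
    · have h1 : ¬ P (L ⊔ AddSubgroup.zmultiples u) := by
        intro h
        have h2 := hL.2 h le_sup_left
        exact huL (h2 (AddSubgroup.mem_sup_right (AddSubgroup.mem_zmultiples u)))
      rw [hP] at h1
      push Not at h1
      have hle : L ⊔ AddSubgroup.zmultiples u ≤ Tq := sup_le hLq (by
        rw [AddSubgroup.zmultiples_le]
        exact hu)
      obtain ⟨d, hd, hdL, hd0⟩ := h1 hle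
      have hdq : q • d = 0 := hle hdL
      obtain ⟨l, hl, z, hz, rfl⟩ := AddSubgroup.mem_sup.1 hdL
      obtain ⟨j, rfl⟩ := AddSubgroup.mem_zmultiples_iff.1 hz
      have hpj : ¬ (p : ℤ) ∣ j := by
        rintro ⟨b, rfl⟩
        apply hd0
        apply hLd _ hd
        refine L.add_mem hl ?_
        rw [mul_comm, mul_smul, natCast_zsmul]
        exact L.zsmul_mem hpu b
      have hcop : IsCoprime (p : ℤ) j := by
        rw [Prime.coprime_iff_not_dvd (Nat.prime_iff_prime_int.1 hpp)]
        exact hpj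
      obtain ⟨a, b, hab⟩ := hcop
      refine ⟨l + j • u, b, hd, hdq, ?_, ?_⟩
      · rw [smul_add]
        refine L.add_mem (L.nsmul_mem hl p) ?_
        rw [smul_comm]
        exact L.zsmul_mem hpu j
      · have e : u - b • (l + j • u) = a • (p • u) - b • l := by
          have h3 : u = (a * p + b * j) • u := by rw [hab, one_smul]
          rw [add_smul, mul_smul, mul_smul, natCast_zsmul] at h3
          rw [smul_add]
          nth_rewrite 1 [h3]
          abel
        rw [e]
        exact L.sub_mem (L.zsmul_mem hpu a) (L.zsmul_mem hl b)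
  -- the quotient
  have hlift : L ≤ (nsmulAddMonoidHom q : T →+ T).ker := hLq
  set θ : T ⧸ L →+ T := QuotientAddGroup.lift L (nsmulAddMonoidHom q) hlift with hθ
  have hθm : ∀ t : T, θ (t : T ⧸ L) = q • t := fun t => rfl
  have hrange : Nat.card θ.range = Nat.card (nsmulAddMonoidHom q : T →+ T).range := by
    have : θ.range = (nsmulAddMonoidHom q : T →+ T).range := by
      ext x
      constructor
      · rintro ⟨v, rfl⟩
        obtain ⟨t, rfl⟩ := QuotientAddGroup.mk_surjective v
        exact ⟨t, rfl⟩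
      · rintro ⟨t, rfl⟩
        exact ⟨(t : T ⧸ L), rfl⟩
    rw [this]
  have hQ : Nat.card (T ⧸ L) = Nat.card (nsmulAddMonoidHom q : T →+ T).range * Nat.card θ.ker := by
    rw [AddSubgroup.card_eq_card_quotient_mul_card_addSubgroup θ.ker, ← hrange]
    congr 1
    exact Nat.card_congr (QuotientAddGroup.quotientKerEquivRange θ).toEquiv
  have : Fintype (T ⧸ L) := Fintype.ofFinite _
  set W : Finset (T ⧸ L) := univ.filter (fun w => θ w = 0 ∧ ∀ p ∈ q.primeFactors,
    ∃ d : T, ((0 : F), d) ∈ n • A - n • A ∧ c p • w = (d : T ⧸ L)) with hW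
  have hker : Nat.card θ.ker ≤ q * W.card := by
    have h1 : Nat.card θ.ker = (univ.filter (fun w : T ⧸ L => θ w = 0)).card := by
      rw [← Fintype.card_subtype, ← Nat.card_eq_fintype_card]
      exact Nat.card_congr (Equiv.subtypeEquivRight fun x => AddMonoidHom.mem_ker)
    rw [h1]
    have h2 : univ.filter (fun w : T ⧸ L => θ w = 0) ⊆
        (range q ×ˢ W).image (fun z => z.1 • z.2) := by
      intro v hv
      rw [mem_filter] at hv
      obtain ⟨u, rfl⟩ := QuotientAddGroup.mk_surjective v
      have hu : q • u = 0 := hv.2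
      have hex : ∀ p : ℕ, ∃ z : T × ℤ, p ∈ q.primeFactors →
          ((0 : F), z.1) ∈ n • A - n • A ∧ q • z.1 = 0 ∧ p • z.1 ∈ L ∧
            c p • u - z.2 • z.1 ∈ L := by
        intro p
        by_cases hp : p ∈ q.primeFactors
        · obtain ⟨d, j, h3, h4, h5, h6⟩ := key p hp (c p • u) (by rw [smul_comm, hu, smul_zero]) (by
            obtain ⟨b, hb⟩ := (hc p hp).2.1
            have : p • (c p • u) = (p * c p : ℤ) • u := by rw [mul_smul, natCast_zsmul]
            rw [this, hb, mul_comm, mul_smul, natCast_zsmul, hu, smul_zero]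
            exact L.zero_mem)
          exact ⟨(d, j), fun _ => ⟨h3, h4, h5, h6⟩⟩
        · exact ⟨(0, 0), fun h => absurd h hp⟩
      choose z hz using hex
      set w : T ⧸ L := ∑ p ∈ q.primeFactors, (((z p).1 : T) : T ⧸ L) with hw
      have hqz : ∀ p ∈ q.primeFactors, q • (((z p).1 : T) : T ⧸ L) = 0 := by
        intro p hp
        rw [← QuotientAddGroup.mk_nsmul, (hz p hp).2.1, QuotientAddGroup.mk_zero]
      have hpz : ∀ p ∈ q.primeFactors, p • (((z p).1 : T) : T ⧸ L) = 0 := by
        intro p hp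
        rw [← QuotientAddGroup.mk_nsmul]
        exact (QuotientAddGroup.eq_zero_iff _).2 (hz p hp).2.2.1
      have hqw : q • w = 0 := by
        rw [hw, smul_sum]
        exact sum_eq_zero hqz
      have hcw : ∀ p ∈ q.primeFactors, c p • w = (((z p).1 : T) : T ⧸ L) := by
        intro p hp
        rw [hw, smul_sum, sum_eq_single_of_mem p hp]
        · obtain ⟨b, hb⟩ := (hc p hp).1
          rw [show c p = 1 + b * p by linarith, add_smul, one_smul, mul_smul, natCast_zsmul, hpz p hp,
            smul_zero, add_zero]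
        · intro r hr hrp
          obtain ⟨b, hb⟩ := (hc r hr).2.2 p hp hrp.symm
          rw [hb, mul_comm, mul_smul, natCast_zsmul, hpz r hr, smul_zero]
      have hwW : w ∈ W := by
        rw [hW, mem_filter]
        refine ⟨mem_univ _, ?_, fun p hp => ⟨(z p).1, (hz p hp).1, hcw p hp⟩⟩
        rw [hw, map_sum]
        exact sum_eq_zero fun p hp => (hz p hp).2.1
      set k : ℤ := (∑ p ∈ q.primeFactors, (z p).2 * c p) % q with hk
      have hk0 : 0 ≤ k := Int.emod_nonneg _ (by exact_mod_cast hq0.ne')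
      have hkq : k < q := Int.emod_lt_of_pos _ (by exact_mod_cast hq0)
      have huk : ((u : T) : T ⧸ L) = k • w := by
        have e1 : ((u : T) : T ⧸ L) = (∑ p ∈ q.primeFactors, c p) • ((u : T) : T ⧸ L) := by
          obtain ⟨b, hb⟩ := hcs
          rw [show ∑ p ∈ q.primeFactors, c p = 1 + b * q by linarith, add_smul, one_smul, mul_smul,
            natCast_zsmul, ← QuotientAddGroup.mk_nsmul, hu, QuotientAddGroup.mk_zero, smul_zero,
            add_zero]
        have e2 : ∀ p ∈ q.primeFactors, c p • ((u : T) : T ⧸ L) = ((z p).2 * c p) • w := by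
          intro p hp
          rw [mul_smul, hcw p hp, ← QuotientAddGroup.mk_zsmul, ← QuotientAddGroup.mk_zsmul,
            QuotientAddGroup.eq]
          have := L.neg_mem (hz p hp).2.2.2
          rwa [neg_sub, sub_eq_neg_add] at this
        rw [e1, sum_smul, sum_congr rfl e2, ← sum_smul]
        have e3 := Int.emod_add_mul_ediv (∑ p ∈ q.primeFactors, (z p).2 * c p) q
        rw [← hk] at e3
        rw [← e3, add_smul, mul_comm, mul_smul, natCast_zsmul, hqw, smul_zero, add_zero]
      refine mem_image.2 ⟨(k.toNat, w), mem_product.2 ⟨mem_range.2 ?_, hwW⟩, ?_⟩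
      · simp only
        omega
      · simp only
        rw [huk]
        nth_rewrite 2 [← Int.toNat_of_nonneg hk0]
        rw [natCast_zsmul]
    refine (card_le_card h2).trans (card_image_le.trans ?_)
    rw [card_product, card_range]
  have hWA : W.card * (A.image Prod.fst).card ≤
      ((n * q.primeFactors.card + 1) • A - (n * q.primeFactors.card) • A).card := by
    have hch : ∀ x : F, ∃ a : F × T, x ∈ A.image Prod.fst → a ∈ A ∧ a.1 = x := by
      intro x
      by_cases hx : x ∈ A.image Prod.fst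
      · obtain ⟨a, ha, hax⟩ := mem_image.1 hx
        exact ⟨a, fun _ => ⟨ha, hax⟩⟩
      · exact ⟨0, fun h => absurd h hx⟩
    choose a ha using hch
    rw [← card_product]
    refine le_trans ?_ (card_image_le (f := fun z : F × T => (z.1, ((z.2 : T) : T ⧸ L))))
    refine card_le_card_of_injOn (fun z => (z.2, z.1 + (((a z.2).2 : T) : T ⧸ L))) ?_ ?_
    · rintro ⟨w, x⟩ hwx
      rw [mem_coe, mem_product] at hwx
      obtain ⟨hw1, hx⟩ := hwx
      simp only at hw1 hx
      rw [hW, mem_filter] at hw1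
      obtain ⟨-, hw0, hwp⟩ := hw1
      obtain ⟨u, rfl⟩ := QuotientAddGroup.mk_surjective w
      have hu : q • u = 0 := hw0
      have hex : ∀ p : ℕ, ∃ d : T, p ∈ q.primeFactors →
          ((0 : F), d) ∈ n • A - n • A ∧ c p • ((u : T) : T ⧸ L) = (d : T ⧸ L) := by
        intro p
        by_cases hp : p ∈ q.primeFactors
        · obtain ⟨d, hd⟩ := hwp p hp
          exact ⟨d, fun _ => hd⟩
        · exact ⟨0, fun h => absurd h hp⟩
      choose d hd using hex
      rw [mem_coe]
      refine mem_image.2 ⟨a x + ∑ p ∈ q.primeFactors, ((0 : F), d p), ?_, ?_⟩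
      · have h3 : ∑ p ∈ q.primeFactors, ((0 : F), d p) ∈
            q.primeFactors.card • (n • A - n • A) := by
          have h4 := sum_mem (S := n • A - n • A) (q.primeFactors.1.map fun p => ((0 : F), d p)) (by
            intro y hy
            obtain ⟨p, hp, rfl⟩ := Multiset.mem_map.1 hy
            exact (hd p hp).1)
          rwa [Multiset.card_map] at h4
        rw [nsmul_sub, ← mul_nsmul] at h3
        obtain ⟨y1, hy1, y2, hy2, hy⟩ := mem_sub.1 h3
        rw [← hy, succ_nsmul]
        have e : a x + (y1 - y2) = (y1 + a x) - y2 := by abel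
        rw [e]
        exact sub_mem_sub (add_mem_add hy1 (ha x hx).1) hy2
      · simp only [Prod.fst_add, Prod.snd_add, Prod.fst_sum, Prod.snd_sum, Prod.mk.injEq]
        rw [sum_const_zero, add_zero]
        refine ⟨(ha x hx).2, ?_⟩
        rw [QuotientAddGroup.mk_add, QuotientAddGroup.mk_sum, add_comm]
        congr 1
        rw [← sum_congr rfl fun p hp => (hd p hp).2, ← sum_smul]
        obtain ⟨b, hb⟩ := hcs
        rw [show ∑ p ∈ q.primeFactors, c p = 1 + b * q by linarith, add_smul, one_smul, mul_smul,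
          natCast_zsmul, ← QuotientAddGroup.mk_nsmul, hu, QuotientAddGroup.mk_zero, smul_zero,
          add_zero]
    · rintro ⟨w, x⟩ hwx ⟨w', x'⟩ hwx' he
      simp only [Prod.mk.injEq] at he
      obtain ⟨rfl, he⟩ := he
      rw [Prod.mk.injEq]
      exact ⟨add_right_cancel he, rfl⟩
  have hpr := prG hA hK (n * q.primeFactors.card + 1) (n * q.primeFactors.card)
  rw [show n * q.primeFactors.card + 1 + n * q.primeFactors.card = 2 * n * q.primeFactors.card + 1 by
    ring] at hpr
  rw [hQ]
  push_cast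
  have h5 : ((W.card * (A.image Prod.fst).card : ℕ) : ℝ) ≤
      K ^ (2 * n * q.primeFactors.card + 1) * A.card := by
    refine le_trans ?_ hpr
    exact_mod_cast hWA
  have h6 : (Nat.card θ.ker : ℝ) ≤ q * W.card := by exact_mod_cast hker
  push_cast at h5
  calc (Nat.card (nsmulAddMonoidHom q : T →+ T).range : ℝ) * Nat.card θ.ker *
        (A.image Prod.fst).card ≤
      Nat.card (nsmulAddMonoidHom q : T →+ T).range * (q * W.card) * (A.image Prod.fst).card := by
        gcongr
    _ = Nat.card (nsmulAddMonoidHom q : T →+ T).range * q * (W.card * (A.image Prod.fst).card) := by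
        ring
    _ ≤ _ := by gcongr


/-- models in `F × T`, with `F` torsion-free and `T` finite -/
theorem core {F T : Type*} [AddCommGroup F] [AddCommGroup T] [Finite T] [DecidableEq F]
    [DecidableEq T] (htf : ∀ (j : ℕ) (x : F), j ≠ 0 → j • x = 0 → x = 0)
    {A : Finset (F × T)} (hA : A.Nonempty) {K : ℝ}
    (hK : ((A + A).card : ℝ) ≤ K * A.card) {n : ℕ} (hn : 2 ≤ n) {q : ℕ} (hq : Squarefree q) :
    ∃ (m : ℕ) (L : AddSubgroup T) (φ : F → ZMod m), 0 < m ∧
      (m : ℝ) * Nat.card (T ⧸ L) ≤ Nat.card (nsmulAddMonoidHom q : T →+ T).range * q *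
        ((2 * K) ^ (150001 * n + 2 * n * q.primeFactors.card) * A.card) ∧
      IsoN n A (fun x => (φ x.1, ((x.2 : T) : T ⧸ L))) := by
  classical
  have hK1 : 1 ≤ K := one_le_K hA hK
  obtain ⟨L, hL, hcard⟩ := quot_card hA hK n hq
  obtain ⟨m, φ, hm0, hm, hφ⟩ := model htf hn (hA.image Prod.fst) (proj_doubling hA hK)
  refine ⟨m, L, φ, hm0, ?_, ?_⟩
  · have h1 : (2 * K ^ 3) ^ (50000 * n) ≤ (2 * K) ^ (150000 * n) := by
      calc (2 * K ^ 3) ^ (50000 * n) ≤ ((2 * K) ^ 3) ^ (50000 * n) := by
            apply pow_le_pow_left₀ (by positivity)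
            have : 0 ≤ K ^ 3 := by positivity
            nlinarith
        _ = (2 * K) ^ (150000 * n) := by
            rw [← pow_mul]
            congr 1
            ring
    have h2 : K ^ (2 * n * q.primeFactors.card + 1) ≤ (2 * K) ^ (2 * n * q.primeFactors.card + 1) :=
      pow_le_pow_left₀ (by linarith) (by linarith) _
    have h3 : (2 * K) ^ (150000 * n) * (2 * K) ^ (2 * n * q.primeFactors.card + 1) ≤
        (2 * K) ^ (150001 * n + 2 * n * q.primeFactors.card) := by
      rw [← pow_add]
      exact pow_le_pow_right₀ (by linarith) (by omega)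
    have h4 : (0 : ℝ) ≤ Nat.card (nsmulAddMonoidHom q : T →+ T).range * q := by positivity
    calc (m : ℝ) * Nat.card (T ⧸ L) ≤
        ((2 * K ^ 3) ^ (50000 * n) * (A.image Prod.fst).card) * Nat.card (T ⧸ L) := by gcongr
      _ = (2 * K ^ 3) ^ (50000 * n) * (Nat.card (T ⧸ L) * (A.image Prod.fst).card) := by ring
      _ ≤ (2 * K) ^ (150000 * n) * (Nat.card (nsmulAddMonoidHom q : T →+ T).range * q *
          (K ^ (2 * n * q.primeFactors.card + 1) * A.card)) := by gcongr
      _ ≤ (2 * K) ^ (150000 * n) * (Nat.card (nsmulAddMonoidHom q : T →+ T).range * q *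
          ((2 * K) ^ (2 * n * q.primeFactors.card + 1) * A.card)) := by gcongr
      _ = Nat.card (nsmulAddMonoidHom q : T →+ T).range * q * (((2 * K) ^ (150000 * n) *
          (2 * K) ^ (2 * n * q.primeFactors.card + 1)) * A.card) := by ring
      _ ≤ _ := by gcongr
  · have hmap : ∀ s : Multiset (F × T), (s.map (fun x => (φ x.1, ((x.2 : T) : T ⧸ L)))).sum =
        (((s.map Prod.fst).map φ).sum, ((s.sum.2 : T) : T ⧸ L)) := by
      intro s
      induction s using Multiset.induction_on with
      | empty =>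
        simp only [Multiset.map_zero, Multiset.sum_zero]
        rfl
      | cons a s ih =>
        simp only [Multiset.map_cons, Multiset.sum_cons]
        rw [ih]
        rfl
    have hfst : ∀ s : Multiset (F × T), (s.map Prod.fst).sum = s.sum.1 := by
      intro s
      induction s using Multiset.induction_on with
      | empty => simp
      | cons a s ih =>
        simp only [Multiset.map_cons, Multiset.sum_cons]
        rw [ih]
        rfl
    intro s t hs ht hsn htn
    rw [hmap, hmap, Prod.mk.injEq]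
    have h1 := hφ (s.map Prod.fst) (t.map Prod.fst) (by
      intro x hx
      obtain ⟨y, hy, rfl⟩ := Multiset.mem_map.1 hx
      exact mem_image_of_mem _ (hs y hy)) (by
      intro x hx
      obtain ⟨y, hy, rfl⟩ := Multiset.mem_map.1 hx
      exact mem_image_of_mem _ (ht y hy)) (by rw [Multiset.card_map, hsn])
      (by rw [Multiset.card_map, htn])
    rw [h1, hfst, hfst]
    constructor
    · rintro ⟨h2, h3⟩
      rw [QuotientAddGroup.eq] at h3
      have h4 : ((0 : F), -s.sum.2 + t.sum.2) ∈ n • A - n • A := by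
        have h5 := sum_mem s hs
        have h6 := sum_mem t ht
        rw [hsn] at h5
        rw [htn] at h6
        have h7 := sub_mem_sub h6 h5
        have e : t.sum - s.sum = ((0 : F), -s.sum.2 + t.sum.2) := by
          refine Prod.ext ?_ ?_
          · rw [Prod.fst_sub, h2, sub_self]
          · rw [Prod.snd_sub, sub_eq_neg_add]
        rwa [e] at h7
      have h5 := hL _ h4 h3
      refine Prod.ext h2 ?_
      rw [neg_add_eq_zero] at h5
      exact h5
    · intro h
      rw [h]
      exact ⟨rfl, rfl⟩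

/-- **Models in all groups whose torsion is almost squarefree** -/
theorem gmodel {G : Type*} [AddCommGroup G] [DecidableEq G] {q R : ℕ} (hq : Squarefree q)
    (hfin : {y : G | ∃ x, IsOfFinAddOrder x ∧ q • x = y}.Finite)
    (hR : {y : G | ∃ x, IsOfFinAddOrder x ∧ q • x = y}.ncard ≤ R)
    {A : Finset G} (hA : A.Nonempty) {K : ℝ}
    (hK : ((A + A).card : ℝ) ≤ K * A.card) {n : ℕ} (hn : 2 ≤ n) :
    ∃ (M : Type) (_ : AddCommGroup M) (_ : Finite M) (φ : G → M),
      (Nat.card M : ℝ) ≤ R * q * (2 * K) ^ (150001 * n + 2 * n * q.primeFactors.card) * A.card ∧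
      IsoN n A φ := by
  classical
  have hK1 : 1 ≤ K := one_le_K hA hK
  set H : AddSubgroup G := AddSubgroup.closure (A : Set G) with hH
  have hfg : AddGroup.FG H := by
    rw [AddGroup.fg_iff_addSubgroup_fg]
    exact ⟨A, rfl⟩
  obtain ⟨r, ι, hι, p, hp, e, ⟨f⟩⟩ := AddCommGroup.equiv_free_prod_directSum_zmod H
  set F := Fin r →₀ ℤ with hF
  set T := DirectSum ι (fun i => ZMod (p i ^ e i)) with hT
  have hTfin : Finite T := by
    have : ∀ i, NeZero (p i ^ e i) := fun i => ⟨pow_ne_zero _ (hp i).ne_zero⟩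
    have : ∀ i, Finite (ZMod (p i ^ e i)) := fun i => inferInstance
    exact Finite.of_equiv _ (DirectSum.addEquivProd (fun i => ZMod (p i ^ e i))).symm.toEquiv
  have htf : ∀ (j : ℕ) (x : F), j ≠ 0 → j • x = 0 → x = 0 := by
    intro j x hj hx
    ext i
    have h1 := DFunLike.congr_fun hx i
    rw [Finsupp.smul_apply, nsmul_eq_mul] at h1
    rcases mul_eq_zero.1 h1 with h | h
    · exact absurd (by exact_mod_cast h) hj
    · exact h
  have hcl : ∀ x ∈ A, x ∈ H := fun x hx => AddSubgroup.subset_closure (mem_coe.2 hx)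
  set ψ : G → F × T := fun x => if h : x ∈ H then f ⟨x, h⟩ else 0 with hψ
  have hψm : ∀ (x : G) (h : x ∈ H), ψ x = f ⟨x, h⟩ := by
    intro x h
    rw [hψ]
    exact dif_pos h
  have hsum : ∀ s : Multiset G, (∀ x ∈ s, x ∈ A) → s.sum ∈ H ∧ ψ s.sum = (s.map ψ).sum := by
    intro s
    induction s using Multiset.induction_on with
    | empty =>
      intro _
      refine ⟨H.zero_mem, ?_⟩
      rw [Multiset.sum_zero, Multiset.map_zero, Multiset.sum_zero, hψm 0 H.zero_mem]
      exact f.map_zero
    | cons a s ih =>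
      intro hs
      obtain ⟨h1, h2⟩ := ih fun x hx => hs x (Multiset.mem_cons_of_mem hx)
      have h3 := hcl a (hs a (Multiset.mem_cons_self a s))
      rw [Multiset.sum_cons, Multiset.map_cons, Multiset.sum_cons]
      refine ⟨H.add_mem h3 h1, ?_⟩
      rw [← h2, hψm _ (H.add_mem h3 h1), hψm _ h3, hψm _ h1, ← map_add]
      rfl
  have hiso : IsoN n A ψ := by
    intro s t hs ht hsn htn
    rw [← (hsum s hs).2, ← (hsum t ht).2]
    constructor
    · intro h
      rw [hψm _ (hsum s hs).1, hψm _ (hsum t ht).1] at h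
      exact congrArg Subtype.val (f.injective h)
    · intro h
      rw [h]
  have hcard : (A.image ψ).card = A.card := hiso.card_image hn
  have hK' : ((A.image ψ + A.image ψ).card : ℝ) ≤ K * (A.image ψ).card := by
    rw [hcard]
    refine le_trans ?_ hK
    exact_mod_cast hiso.card_sum hn
  obtain ⟨m, L, φ, hm0, hm, hφ⟩ := core htf (hA.image ψ) hK' hn hq
  have : NeZero m := ⟨hm0.ne'⟩
  refine ⟨ZMod m × (T ⧸ L), inferInstance, inferInstance, fun x => _, ?_, hiso.comp hφ⟩
  rw [Nat.card_prod, Nat.card_zmod]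
  push_cast
  refine hm.trans ?_
  rw [hcard]
  have h1 : Nat.card (nsmulAddMonoidHom q : T →+ T).range ≤ R := by
    refine le_trans ?_ hR
    rw [← Nat.card_coe_set_eq]
    have : Finite {y : G | ∃ x, IsOfFinAddOrder x ∧ q • x = y} := hfin
    refine Nat.card_le_card_of_injective
      (fun t : (nsmulAddMonoidHom q : T →+ T).range =>
        (⟨((f.symm ((0 : F), (t : T)) : H) : G), ?_⟩ : {y : G | ∃ x, IsOfFinAddOrder x ∧ q • x = y})) ?_
    · obtain ⟨t, t', ht'⟩ := t
      refine ⟨((f.symm ((0 : F), t') : H) : G), ?_, ?_⟩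
      · have h2 : IsOfFinAddOrder t' := isOfFinAddOrder_of_finite t'
        have h3 := AddMonoidHom.isOfFinAddOrder
          ((H.subtype.comp f.symm.toAddMonoidHom).comp (AddMonoidHom.inr F T)) h2
        exact h3
      · have h4 : q • ((0 : F), t') = ((0 : F), t) := by
          rw [Prod.smul_mk, smul_zero]
          have : q • t' = t := ht'
          rw [this]
        simp only
        rw [← h4, map_nsmul]
        rfl
    · intro t t' h
      have h2 := congrArg Subtype.val h
      simp only at h2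
      have h3 := f.symm.injective (Subtype.ext h2)
      have h4 := (Prod.mk.injEq _ _ _ _ ▸ h3 : (0 : F) = 0 ∧ (t : T) = t').2
      exact Subtype.ext h4
  have h2 : (Nat.card (nsmulAddMonoidHom q : T →+ T).range : ℝ) ≤ R := by exact_mod_cast h1
  calc (Nat.card (nsmulAddMonoidHom q : T →+ T).range : ℝ) * q *
        ((2 * K) ^ (150001 * n + 2 * n * q.primeFactors.card) * A.card)
      ≤ R * q * ((2 * K) ^ (150001 * n + 2 * n * q.primeFactors.card) * A.card) := by gcongr
    _ = _ := by ring

end Pool.Agent.H602.GM
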