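import Mathlib

/-!
# Elements of large prime power order prevent small models
-/

set_option autoImplicit false

open Finset
open scoped Pointwise

namespace Pool.Agent.H602.GM

universe u v

/-- the elements of the example -/
def chain (N y k : ℕ) : Finset ℕ :=
  range (N / 2 ^ k + 2) ∪ (range k).biUnion (fun i =>
    {N / 2 ^ i, N / 2 ^ i + 1, y / 2 ^ i, y / 2 ^ i + 1})

theorem mem_chain {N y k j : ℕ} : j ∈ chain N y k ↔ j < N / 2 ^ k + 2 ∨ ∃ i < k,
    j = N / 2 ^ i ∨ j = N / 2 ^ i + 1 ∨ j = y / 2 ^ i ∨ j = y / 2 ^ i + 1 := by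
  simp only [chain, mem_union, mem_range, mem_biUnion, mem_insert, mem_singleton]

/-- the example is closed under halving -/
theorem chain_half {N y k j : ℕ} (hy : y ≤ N) (hj : j ∈ chain N y k) (hj2 : 2 ≤ j) :
    j / 2 ∈ chain N y k ∧ (j + 1) / 2 ∈ chain N y k := by
  have hyN : y / 2 ^ k ≤ N / 2 ^ k := Nat.div_le_div_right hy
  have key : ∀ z : ℕ, (z = N ∨ z = y) → ∀ i, i < k → ∀ u, (u = z / 2 ^ i / 2 ∨
      u = z / 2 ^ i / 2 + 1) → u ∈ chain N y k := by
    intro z hz i hi u hu
    rw [Nat.div_div_eq_div_mul, ← pow_succ] at hu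
    rw [mem_chain]
    rcases Nat.lt_or_ge (i + 1) k with h | h
    · right
      refine ⟨i + 1, h, ?_⟩
      rcases hz with rfl | rfl <;> tauto
    · left
      rw [show i + 1 = k by omega] at hu
      rcases hz with rfl | rfl <;> omega
  rw [mem_chain] at hj
  rcases hj with hj | ⟨i, hi, hj⟩
  · constructor <;> · rw [mem_chain]; left; omega
  · rcases hj with hj | hj | hj | hj
    · exact ⟨key N (Or.inl rfl) i hi _ (by omega), key N (Or.inl rfl) i hi _ (by omega)⟩
    · exact ⟨key N (Or.inl rfl) i hi _ (by omega), key N (Or.inl rfl) i hi _ (by omega)⟩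
    · exact ⟨key y (Or.inr rfl) i hi _ (by omega), key y (Or.inr rfl) i hi _ (by omega)⟩
    · exact ⟨key y (Or.inr rfl) i hi _ (by omega), key y (Or.inr rfl) i hi _ (by omega)⟩

/-- **Elements of large prime power order** -/
theorem lowA {G : Type u} [AddCommGroup G] [DecidableEq G] {p a : ℕ} (hp : p.Prime) {x : G}
    (hx : addOrderOf x = p ^ (a + 1)) {k : ℕ} (hk : 1 ≤ k)
    (hbig : 2 ^ k * (16 * k ^ 2 + 4) ≤ p ^ (a + 1)) :
    ∃ S : Finset G, S.Nonempty ∧ (S + S).card ≤ (4 * k + 3) * S.card ∧
      ∀ (H : Type v) [AddCommGroup H] [Finite H] (φ : G → H),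
        (∀ a ∈ S, ∀ b ∈ S, ∀ c ∈ S, ∀ d ∈ S, φ a + φ b = φ c + φ d ↔ a + b = c + d) →
        2 ^ k * S.card ≤ 2 * Nat.card H := by
  classical
  set N := p ^ (a + 1) with hN
  set y := p ^ a with hy
  have hpy : N = p * y := by rw [hN, hy, pow_succ, mul_comm]
  have hy0 : 0 < y := pow_pos hp.pos a
  have hyN : y < N := by
    rw [hpy]
    nlinarith [hp.two_le]
  set l := N / 2 ^ k + 1 with hl
  have h2k : 0 < 2 ^ k := by positivity
  have h2k' : 2 ≤ 2 ^ k := by
    calc 2 = 2 ^ 1 := (pow_one 2).symm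
      _ ≤ 2 ^ k := Nat.pow_le_pow_right (by norm_num) hk
  have hl1 : 16 * k ^ 2 + 4 ≤ N / 2 ^ k := by
    rw [Nat.le_div_iff_mul_le h2k, mul_comm]
    exact hbig
  have hl2 : 2 ^ k * (N / 2 ^ k) ≤ N := Nat.mul_div_le N (2 ^ k)
  have hlN : l < N := by
    have : 2 * (N / 2 ^ k) ≤ 2 ^ k * (N / 2 ^ k) := Nat.mul_le_mul_right _ h2k'
    omega
  set f : ℕ → G := fun j => j • x with hf
  set A : Finset G := (range (N / 2 ^ k + 2)).image f with hA
  set B : Finset G := ((range k).biUnion (fun i =>
    {N / 2 ^ i, N / 2 ^ i + 1, y / 2 ^ i, y / 2 ^ i + 1})).image f with hB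
  have hS : (chain N y k).image f = A ∪ B := by rw [chain, image_union]
  have hAcard : A.card = l + 1 := by
    rw [hA, card_image_of_injOn, card_range]
    intro i hi j hj hij
    rw [mem_coe, mem_range] at hi hj
    have h1 := nsmul_injOn_Iio_addOrderOf (x := x)
    rw [hx] at h1
    exact h1 (Set.mem_Iio.2 (by omega)) (Set.mem_Iio.2 (by omega)) hij
  have hBcard : B.card ≤ 4 * k := by
    refine card_image_le.trans (card_biUnion_le.trans ?_)
    calc ∑ i ∈ range k, ({N / 2 ^ i, N / 2 ^ i + 1, y / 2 ^ i, y / 2 ^ i + 1} : Finset ℕ).card ≤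
        ∑ i ∈ range k, 4 := sum_le_sum fun i _ => card_le_four
      _ = 4 * k := by rw [sum_const, card_range, smul_eq_mul, mul_comm]
  have hAA : (A + A).card ≤ 2 * l + 1 := by
    have h1 : A + A ⊆ (range (2 * l + 1)).image f := by
      intro z hz
      obtain ⟨x', hx', y', hy', rfl⟩ := mem_add.1 hz
      obtain ⟨i, hi, rfl⟩ := mem_image.1 hx'
      obtain ⟨j, hj, rfl⟩ := mem_image.1 hy'
      rw [mem_range] at hi hj
      exact mem_image.2 ⟨i + j, mem_range.2 (by omega), add_nsmul x i j⟩
    refine (card_le_card h1).trans (card_image_le.trans ?_)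
    rw [card_range]
  have hScard : (A ∪ B).card ≤ l + 1 + 4 * k := by
    have := card_union_le A B
    omega
  refine ⟨A ∪ B, ?_, ?_, ?_⟩
  · have : A.Nonempty := by
      rw [← card_pos, hAcard]
      omega
    exact this.mono subset_union_left
  · have h1 : (A ∪ B) + (A ∪ B) ⊆ ((A + A) ∪ (A + B)) ∪ (B + B) := by
      intro z hz
      obtain ⟨x, hx, y, hy, rfl⟩ := mem_add.1 hz
      rcases mem_union.1 hx with hx | hx
      · rcases mem_union.1 hy with hy | hy
        · exact mem_union_left _ (mem_union_left _ (add_mem_add hx hy))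
        · exact mem_union_left _ (mem_union_right _ (add_mem_add hx hy))
      · rcases mem_union.1 hy with hy | hy
        · rw [add_comm x y]
          exact mem_union_left _ (mem_union_right _ (add_mem_add hy hx))
        · exact mem_union_right _ (add_mem_add hx hy)
    have h2 := (card_le_card h1).trans (card_union_le _ _)
    have h3 := card_union_le (A + A) (A + B)
    have h4 : (A + B).card ≤ (l + 1) * (4 * k) := by
      refine card_add_le.trans ?_
      rw [hAcard]
      exact Nat.mul_le_mul_left _ hBcard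
    have h5 : (B + B).card ≤ (4 * k) * (4 * k) := card_add_le.trans (Nat.mul_le_mul hBcard hBcard)
    have h6 : l + 1 ≤ (A ∪ B).card := by
      rw [← hAcard]
      exact card_le_card subset_union_left
    have h8 : (4 * k + 3) * (l + 1) ≤ (4 * k + 3) * (A ∪ B).card := Nat.mul_le_mul_left _ h6
    have h9 : (4 * k + 3) * (l + 1) = (l + 1) * (4 * k) + 3 * (l + 1) := by ring
    have h10 : (4 * k) * (4 * k) = 16 * k ^ 2 := by ring
    omega
  · intro H _ _ φ hφ
    rw [← hS] at hφ
    have hm : ∀ j ∈ chain N y k, f j ∈ (chain N y k).image f := fun j hj => mem_image_of_mem _ hj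
    have hm0 : 0 ∈ chain N y k := mem_chain.2 (Or.inl (by omega))
    have hm1 : 1 ∈ chain N y k := mem_chain.2 (Or.inl (by omega))
    have hf0 : f 0 = 0 := zero_nsmul x
    set b : H := φ (f 1) - φ (f 0) with hb
    have hlin : ∀ j, j ∈ chain N y k → φ (f j) = φ (f 0) + j • b := by
      intro j
      induction j using Nat.strong_induction_on with
      | _ j ih =>
        intro hj
        rcases Nat.lt_or_ge j 2 with h | h
        · interval_cases j
          · rw [zero_nsmul, add_zero]
          · rw [one_nsmul, hb]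
            abel
        · obtain ⟨h1, h2⟩ := chain_half hyN.le hj h
          have h3 := (hφ _ (hm j hj) _ (hm 0 hm0) _ (hm _ h1) _ (hm _ h2)).2 (by
            simp only [hf]
            rw [← add_nsmul, ← add_nsmul]
            congr 1
            omega)
          rw [ih _ (by omega) h1, ih _ (by omega) h2] at h3
          rw [eq_sub_of_add_eq h3]
          have h4 : j • b = (j / 2) • b + ((j + 1) / 2) • b := by
            rw [← add_nsmul]
            congr 1
            omega
          rw [h4]
          abel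
    have hNm : N ∈ chain N y k := mem_chain.2 (Or.inr ⟨0, by omega, Or.inl (by simp)⟩)
    have hym : y ∈ chain N y k := mem_chain.2 (Or.inr ⟨0, by omega, Or.inr (Or.inr (Or.inl (by simp)))⟩)
    have hfN : f N = 0 := by
      rw [hf]
      simp only
      rw [← hx]
      exact addOrderOf_nsmul_eq_zero x
    have hfy : f y ≠ 0 := by
      rw [hf]
      simp only
      intro h
      have := Nat.le_of_dvd hy0 (addOrderOf_dvd_of_nsmul_eq_zero h)
      omega
    have h1 : p ^ (a + 1) • b = 0 := by
      have h2 := hlin N hNm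
      rw [hfN, hf0] at h2
      exact left_eq_add.1 h2
    have h2 : ¬ p ^ a • b = 0 := by
      intro h
      have h3 := hlin y hym
      rw [hy, h, add_zero, ← hy] at h3
      have h4 := (hφ _ (hm y hym) _ (hm 0 hm0) _ (hm 0 hm0) _ (hm 0 hm0)).1 (by rw [h3])
      rw [hf0, add_zero, add_zero] at h4
      exact hfy h4
    have : Fact p.Prime := ⟨hp⟩
    have hord : addOrderOf b = p ^ (a + 1) := addOrderOf_eq_prime_pow h2 h1
    have hcard : N ≤ Nat.card H := by
      rw [hN, ← hord]
      exact Nat.le_of_dvd Nat.card_pos (addOrderOf_dvd_natCard b)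
    have h3 : 2 ^ k * (A ∪ B).card ≤ 2 ^ k * (l + 1 + 4 * k) := Nat.mul_le_mul_left _ hScard
    have h4 : 2 ^ k * (l + 1 + 4 * k) = 2 ^ k * (N / 2 ^ k) + 2 ^ k * (4 * k + 2) := by
      rw [hl]
      ring
    have h5 : 2 ^ k * (4 * k + 2) ≤ 2 ^ k * (16 * k ^ 2 + 4) := by
      apply Nat.mul_le_mul_left
      nlinarith
    omega

end Pool.Agent.H602.GM
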