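import Mathlib

/-!
# Large powers of `ℤ / p²` prevent small models
-/

set_option autoImplicit false

open Finset
open scoped Pointwise

namespace Pool.Agent.H602.GM

universe u v

section
variable {p : ℕ} [Fact p.Prime]

/-- the kernel of multiplication by `p` -/
def Zp (p : ℕ) [Fact p.Prime] : Finset (ZMod (p ^ 2)) :=
  (range p).image (fun j => ((p * j : ℕ) : ZMod (p ^ 2)))

theorem mem_Zp {z : ZMod (p ^ 2)} : z ∈ Zp p ↔ p • z = 0 := by
  have hp := (Fact.out : p.Prime)
  have hp0 : 0 < p := hp.pos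
  have : NeZero (p ^ 2) := ⟨pow_ne_zero _ hp.ne_zero⟩
  constructor
  · intro h
    obtain ⟨j, -, rfl⟩ := mem_image.1 h
    rw [nsmul_eq_mul, ← Nat.cast_mul, ZMod.natCast_eq_zero_iff, ← mul_assoc, ← sq]
    exact Dvd.intro _ rfl
  · intro h
    have h1 : ((p * z.val : ℕ) : ZMod (p ^ 2)) = 0 := by
      rw [Nat.cast_mul, ZMod.natCast_zmod_val, ← nsmul_eq_mul]
      exact h
    rw [ZMod.natCast_eq_zero_iff] at h1
    have h1' : p * p ∣ p * z.val := by
      rw [← sq]
      exact h1
    have h2 := Nat.dvd_of_mul_dvd_mul_left hp0 h1'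
    obtain ⟨j, hj⟩ := h2
    refine mem_image.2 ⟨j, mem_range.2 ?_, ?_⟩
    · have h3 := ZMod.val_lt z
      rw [hj, sq] at h3
      exact Nat.lt_of_mul_lt_mul_left h3
    · rw [← hj, ZMod.natCast_zmod_val]

theorem card_Zp : (Zp p).card = p := by
  have hp := (Fact.out : p.Prime)
  have hp0 : 0 < p := hp.pos
  rw [Zp, card_image_of_injOn, card_range]
  intro i hi j hj hij
  rw [mem_coe, mem_range] at hi hj
  simp only at hij
  rw [ZMod.natCast_eq_natCast_iff'] at hij
  have h1 : p * i < p ^ 2 := by
    rw [sq]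
    exact Nat.mul_lt_mul_of_pos_left hi hp0
  have h2 : p * j < p ^ 2 := by
    rw [sq]
    exact Nat.mul_lt_mul_of_pos_left hj hp0
  rw [Nat.mod_eq_of_lt h1, Nat.mod_eq_of_lt h2] at hij
  exact Nat.eq_of_mul_eq_mul_left hp0 hij

end

/-- **Large powers of `ℤ / p²`** -/
theorem lowB {G : Type u} [AddCommGroup G] [DecidableEq G] {p : ℕ} (hp : p.Prime) {r s : ℕ}
    (hrp : r * p = p ^ s) (hsr : s ≤ r) (ι : (Fin r → ZMod (p ^ 2)) →+ G)
    (hι : Function.Injective ι) :
    ∃ S : Finset G, S.Nonempty ∧ (S + S).card ≤ 2 * p ^ s * S.card ∧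
      ∀ (H : Type v) [AddCommGroup H] [Finite H] (φ : G → H),
        (∀ a ∈ S, ∀ b ∈ S, ∀ c ∈ S, ∀ d ∈ S, φ a + φ b = φ c + φ d ↔ a + b = c + d) →
        p ^ r * S.card ≤ 2 * p ^ s * Nat.card H := by
  classical
  have : Fact p.Prime := ⟨hp⟩
  have hp0 : 0 < p := hp.pos
  have hp2 : 2 ≤ p := hp.two_le
  have : NeZero (p ^ 2) := ⟨pow_ne_zero _ hp.ne_zero⟩
  let V := Fin r → ZMod (p ^ 2)
  set E : ℕ → Fin r → V := fun j i => Pi.single i (j : ZMod (p ^ 2)) with hE
  set X : Finset V := (univ ×ˢ range p).image (fun z => E z.2 z.1) with hX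
  set P : Finset V := Fintype.piFinset (fun _ => Zp p) with hP
  set Hs : Finset V := Fintype.piFinset (fun i : Fin r => if (i : ℕ) < s then univ else Zp p)
    with hHs
  have hmP : ∀ x : V, x ∈ P ↔ ∀ i, p • x i = 0 := by
    intro x
    rw [hP, Fintype.mem_piFinset]
    exact forall_congr' fun i => mem_Zp
  have hmH : ∀ x : V, x ∈ Hs ↔ ∀ i : Fin r, s ≤ i → p • x i = 0 := by
    intro x
    rw [hHs, Fintype.mem_piFinset]
    refine forall_congr' fun i => ?_
    rcases Nat.lt_or_ge (i : ℕ) s with h | h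
    · rw [if_pos h]
      exact ⟨fun _ h' => absurd h' (by omega), fun _ => mem_univ _⟩
    · rw [if_neg (by omega), mem_Zp]
      exact ⟨fun h' _ => h', fun h' => h' h⟩
  have hPH : P ⊆ Hs := fun x hx => (hmH x).2 fun i _ => (hmP x).1 hx i
  have hHadd : ∀ x ∈ Hs, ∀ y ∈ Hs, x + y ∈ Hs := by
    intro x hx y hy
    rw [hmH] at hx hy ⊢
    intro i hi
    rw [Pi.add_apply, smul_add, hx i hi, hy i hi, add_zero]
  have hPadd : ∀ x ∈ P, ∀ y ∈ P, x + y ∈ P := by
    intro x hx y hy
    rw [hmP] at hx hy ⊢
    intro i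
    rw [Pi.add_apply, smul_add, hx i, hy i, add_zero]
  have hP0 : (0 : V) ∈ P := by
    rw [hmP]
    intro i
    rw [Pi.zero_apply, smul_zero]
  have hcP : P.card = p ^ r := by
    rw [hP, Fintype.card_piFinset, prod_const, card_Zp, card_univ, Fintype.card_fin]
  have hcH : Hs.card = p ^ s * p ^ r := by
    rw [hHs, Fintype.card_piFinset]
    have e1 : ∀ i : Fin r, (if (i : ℕ) < s then (univ : Finset (ZMod (p ^ 2))) else Zp p).card =
        (if (i : ℕ) < s then p else 1) * p := by
      intro i
      split_ifs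
      · rw [card_univ, ZMod.card, sq]
      · rw [card_Zp, one_mul]
    rw [prod_congr rfl fun i _ => e1 i, prod_mul_distrib, prod_const, card_univ, Fintype.card_fin]
    congr 1
    rw [Fin.prod_univ_eq_prod_range (fun i => if i < s then p else 1) r, prod_ite, prod_const,
      prod_const_one, mul_one]
    congr 1
    have : (range r).filter (fun i => i < s) = range s := by
      ext i
      rw [mem_filter, mem_range, mem_range]
      omega
    rw [this, card_range]
  have hcX : X.card ≤ p ^ s := by
    refine card_image_le.trans ?_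
    rw [card_product, card_univ, Fintype.card_fin, card_range, hrp]
  have hr0 : 0 < r := by
    rcases Nat.eq_zero_or_pos r with h | h
    · rw [h, zero_mul] at hrp
      exact absurd hrp.symm (pow_ne_zero _ hp.ne_zero)
    · exact h
  have hX0 : (0 : V) ∈ X := by
    refine mem_image.2 ⟨(⟨0, hr0⟩, 0), mem_product.2 ⟨mem_univ _, mem_range.2 hp0⟩, ?_⟩
    simp only [hE, Nat.cast_zero, Pi.single_zero]
  have hXP : ∀ (x : V) (i : Fin r), (∀ j, j ≠ i → p • x j = 0) → x ∈ X + P := by
    intro x i hx
    refine mem_add.2 ⟨E ((x i).val % p) i, mem_image.2 ⟨(i, (x i).val % p),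
      mem_product.2 ⟨mem_univ _, mem_range.2 (Nat.mod_lt _ hp0)⟩, rfl⟩,
      x - E ((x i).val % p) i, ?_, by abel⟩
    rw [hmP]
    intro j
    rw [Pi.sub_apply]
    by_cases hj : j = i
    · subst hj
      simp only [hE, Pi.single_eq_same]
      have h1 := Nat.div_add_mod (x j).val p
      have h2 : x j = ((p * ((x j).val / p) + (x j).val % p : ℕ) : ZMod (p ^ 2)) := by
        rw [h1, ZMod.natCast_zmod_val]
      have h3 : x j - (((x j).val % p : ℕ) : ZMod (p ^ 2)) =
          ((p * ((x j).val / p) : ℕ) : ZMod (p ^ 2)) := by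
        nth_rewrite 1 [h2]
        push_cast
        ring
      rw [h3, nsmul_eq_mul, ← Nat.cast_mul, ZMod.natCast_eq_zero_iff, ← mul_assoc, ← sq]
      exact Dvd.intro _ rfl
    · simp only [hE]
      rw [Pi.single_eq_of_ne hj, sub_zero]
      exact hx j hj
  set A : Finset V := Hs ∪ (X + P) with hA
  have hHA : Hs ⊆ A := subset_union_left
  have hsing : ∀ (i : Fin r) (c : ZMod (p ^ 2)), (Pi.single i c : V) ∈ A := by
    intro i c
    refine mem_union_right _ (hXP _ i fun j hj => ?_)
    rw [Pi.single_eq_of_ne hj, smul_zero]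
  have hcA : A.card ≤ 2 * (p ^ s * p ^ r) := by
    have h1 := card_union_le Hs (X + P)
    have h2 : (X + P).card ≤ p ^ s * p ^ r := by
      refine card_add_le.trans ?_
      rw [hcP]
      exact Nat.mul_le_mul_right _ hcX
    rw [hcH] at h1
    rw [hA]
    omega
  have hAA : (A + A).card ≤ 2 * p ^ s * A.card := by
    have h1 : A + A ⊆ (X + Hs) ∪ ((X + X) + P) := by
      intro z hz
      obtain ⟨x, hx, y, hy, rfl⟩ := mem_add.1 hz
      have hc : ∀ x ∈ Hs, ∀ y ∈ X + P, x + y ∈ X + Hs := by
        intro x hx y hy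
        obtain ⟨a, ha, b, hb, rfl⟩ := mem_add.1 hy
        have e : x + (a + b) = a + (x + b) := by abel
        rw [e]
        exact add_mem_add ha (hHadd x hx b (hPH hb))
      rcases mem_union.1 hx with hx | hx
      · rcases mem_union.1 hy with hy | hy
        · have e : x + y = 0 + (x + y) := by abel
          rw [e]
          exact mem_union_left _ (add_mem_add hX0 (hHadd x hx y hy))
        · exact mem_union_left _ (hc x hx y hy)
      · rcases mem_union.1 hy with hy | hy
        · rw [add_comm x y]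
          exact mem_union_left _ (hc y hy x hx)
        · obtain ⟨a, ha, b, hb, rfl⟩ := mem_add.1 hx
          obtain ⟨c, hc, d, hd, rfl⟩ := mem_add.1 hy
          have e : a + b + (c + d) = (a + c) + (b + d) := by abel
          rw [e]
          exact mem_union_right _ (add_mem_add (add_mem_add ha hc) (hPadd b hb d hd))
    have h2 := (card_le_card h1).trans (card_union_le _ _)
    have h3 : (X + Hs).card ≤ p ^ s * Hs.card := card_add_le.trans (Nat.mul_le_mul_right _ hcX)
    have h4 : ((X + X) + P).card ≤ p ^ s * Hs.card := by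
      refine card_add_le.trans ?_
      have h5 : (X + X).card ≤ p ^ s * p ^ s := card_add_le.trans (Nat.mul_le_mul hcX hcX)
      rw [hcP, hcH, ← mul_assoc]
      exact Nat.mul_le_mul_right _ h5
    have h5 : p ^ s * Hs.card ≤ p ^ s * A.card := Nat.mul_le_mul_left _ (card_le_card hHA)
    have h6 : 2 * p ^ s * A.card = p ^ s * A.card + p ^ s * A.card := by ring
    omega
  have hcS : (A.image ι).card = A.card := card_image_of_injective _ hι
  refine ⟨A.image ι, ?_, ?_, ?_⟩
  · exact Nonempty.image ⟨0, hHA (hPH hP0)⟩ _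
  · rw [← image_add, hcS]
    exact card_image_le.trans hAA
  · intro H _ _ φ hφ
    set ψ : V → H := fun x => φ (ι x) - φ (ι 0) with hψ
    have hA0 : (0 : V) ∈ A := hHA (hPH hP0)
    have hadd : ∀ x ∈ A, ∀ y ∈ A, x + y ∈ A → ψ (x + y) = ψ x + ψ y := by
      intro x hx y hy hxy
      have h1 := (hφ _ (mem_image_of_mem ι hxy) _ (mem_image_of_mem ι hA0) _
        (mem_image_of_mem ι hx) _ (mem_image_of_mem ι hy)).2 (by rw [← map_add, ← map_add, add_zero])
      rw [hψ]
      simp only
      rw [eq_sub_of_add_eq h1]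
      abel
    have hψ0 : ψ 0 = 0 := sub_self _
    have hinj : ∀ x ∈ A, ψ x = 0 → x = 0 := by
      intro x hx h
      have h1 : φ (ι x) = φ (ι 0) := sub_eq_zero.1 h
      have h2 := (hφ _ (mem_image_of_mem ι hx) _ (mem_image_of_mem ι hA0) _
        (mem_image_of_mem ι hA0) _ (mem_image_of_mem ι hA0)).1 (by rw [h1])
      exact hι (add_right_cancel h2)
    have hmul : ∀ (i : Fin r) (k : ℕ), ψ (E k i) = k • ψ (E 1 i) := by
      intro i k
      induction k with
      | zero =>
        rw [zero_nsmul, ← hψ0]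
        congr 1
        simp only [hE, Nat.cast_zero, Pi.single_zero]
      | succ k ih =>
        have h1 : E (k + 1) i = E k i + E 1 i := by
          simp only [hE]
          rw [← Pi.single_add]
          congr 1
          push_cast
          rfl
        rw [h1, hadd _ (hsing i _) _ (hsing i _) (by rw [← h1]; exact hsing i _), ih, succ_nsmul]
    have hper : ∀ i : Fin r, ((p ^ 2 : ℕ) : ℤ) • ψ (E 1 i) = 0 := by
      intro i
      rw [natCast_zsmul, ← hmul, ← hψ0]
      congr 1
      simp only [hE, ZMod.natCast_self, Pi.single_zero]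
    set θi : Fin r → (ZMod (p ^ 2) →+ H) := fun i =>
      ZMod.lift (p ^ 2) ⟨zmultiplesHom H (ψ (E 1 i)), by
        rw [zmultiplesHom_apply]
        exact hper i⟩ with hθi
    have hθi1 : ∀ (i : Fin r) (c : ZMod (p ^ 2)), θi i c = ψ (Pi.single i c) := by
      intro i c
      have h1 : (Pi.single i c : V) = E c.val i := by
        simp only [hE]
        rw [ZMod.natCast_zmod_val]
      rw [h1, hmul]
      have h2 : c = ((c.val : ℤ) : ZMod (p ^ 2)) := by
        rw [Int.cast_natCast, ZMod.natCast_zmod_val]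
      have h3 : θi i ((c.val : ℤ) : ZMod (p ^ 2)) = (c.val : ℤ) • ψ (E 1 i) := by
        simp only [hθi]
        rw [ZMod.lift_coe]
        rfl
      rw [natCast_zsmul] at h3
      rw [← h3, ← h2]
    set θ : V →+ H := ∑ i, (θi i).comp (Pi.evalAddMonoidHom (fun _ => ZMod (p ^ 2)) i) with hθ
    have hθa : ∀ x : V, θ x = ∑ i, θi i (x i) := by
      intro x
      rw [hθ, AddMonoidHom.finsetSum_apply]
      rfl
    have hθP : ∀ x ∈ P, θ x = ψ x := by
      intro x hx
      have h1 : ∀ F : Finset (Fin r), ψ (∑ i ∈ F, Pi.single i (x i)) =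
          ∑ i ∈ F, θi i (x i) ∧ (∑ i ∈ F, (Pi.single i (x i) : V)) ∈ P := by
        intro F
        induction F using Finset.induction_on with
        | empty =>
          rw [sum_empty, sum_empty]
          exact ⟨hψ0, hP0⟩
        | insert i F hi ih =>
          obtain ⟨ih1, ih2⟩ := ih
          have h2 : (Pi.single i (x i) : V) ∈ P := by
            rw [hmP]
            intro j
            by_cases hj : j = i
            · subst hj
              rw [Pi.single_eq_same]
              exact (hmP x).1 hx j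
            · rw [Pi.single_eq_of_ne hj, smul_zero]
          rw [sum_insert hi, sum_insert hi]
          have h3 := hPadd _ h2 _ ih2
          exact ⟨by rw [hadd _ (hHA (hPH h2)) _ (hHA (hPH ih2)) (hHA (hPH h3)), ih1, hθi1], h3⟩
      obtain ⟨h2, -⟩ := h1 univ
      rw [hθa, ← h2, Finset.univ_sum_single]
    have hθinj : Function.Injective θ := by
      rw [injective_iff_map_eq_zero]
      intro x hx
      have h1 : p • x ∈ P := by
        rw [hmP]
        intro i
        rw [Pi.smul_apply, ← mul_nsmul, ← sq, nsmul_eq_mul, ZMod.natCast_self, zero_mul]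
      have h2 : ψ (p • x) = 0 := by
        rw [← hθP _ h1, map_nsmul, hx, smul_zero]
      have h3 := hinj _ (hHA (hPH h1)) h2
      have h4 : x ∈ P := by
        rw [hmP]
        intro i
        exact congrFun h3 i
      refine hinj _ (hHA (hPH h4)) ?_
      rw [← hθP _ h4, hx]
    have hcard : p ^ r * p ^ r ≤ Nat.card H := by
      have h1 := Nat.card_le_card_of_injective θ hθinj
      rw [Nat.card_eq_fintype_card, Fintype.card_fun, Fintype.card_fin, ZMod.card, ← pow_mul,
        two_mul, pow_add] at h1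
      exact h1
    rw [hcS]
    calc p ^ r * A.card ≤ p ^ r * (2 * (p ^ s * p ^ r)) := Nat.mul_le_mul_left _ hcA
      _ = 2 * p ^ s * (p ^ r * p ^ r) := by ring
      _ ≤ _ := Nat.mul_le_mul_left _ hcard

end Pool.Agent.H602.GM
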