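import Pool.Agent.H602.GM.Red
import Pool.Agent.H602.GM.LowA
import Pool.Agent.H602.GM.LowB

/-!
# The groups with models of polynomial size
-/

set_option autoImplicit false

open Finset Filter
open scoped Pointwise

namespace Pool.Agent.H602.GM

universe u v

/-- many elements of order `p` divisible by `p` give large powers of `ℤ / p²` -/
theorem embed {G : Type u} [AddCommGroup G] {p : ℕ} (hp : p.Prime)
    (hinf : {x : G | p • x = 0 ∧ ∃ y, p • y = x}.Infinite) (r : ℕ) :
    ∃ ι : (Fin r → ZMod (p ^ 2)) →+ G, Function.Injective ι := by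
  classical
  have : NeZero (p ^ 2) := ⟨pow_ne_zero _ hp.ne_zero⟩
  induction r with
  | zero => exact ⟨0, fun x y _ => Subsingleton.elim x y⟩
  | succ r ih =>
    obtain ⟨ι, hι⟩ := ih
    obtain ⟨x, ⟨hx, y, hy⟩, hxι⟩ := hinf.exists_notMem_finset
      (univ.image (fun v : Fin r → ZMod (p ^ 2) => ι v))
    have hxι' : ∀ v, ι v ≠ x := fun v hv => hxι (mem_image.2 ⟨v, mem_univ _, hv⟩)
    have hper : ((p ^ 2 : ℕ) : ℤ) • y = 0 := by
      rw [natCast_zsmul, sq, mul_nsmul, hy, hx]
    set θ : ZMod (p ^ 2) →+ G := ZMod.lift (p ^ 2) ⟨zmultiplesHom G y, by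
      rw [zmultiplesHom_apply]
      exact hper⟩ with hθ
    have hθ1 : ∀ k : ℤ, θ (k : ZMod (p ^ 2)) = k • y := by
      intro k
      rw [hθ, ZMod.lift_coe]
      rfl
    set tl : (Fin (r + 1) → ZMod (p ^ 2)) →+ (Fin r → ZMod (p ^ 2)) :=
      { toFun := fun v i => v i.succ
        map_zero' := rfl
        map_add' := fun _ _ => rfl } with htl
    refine ⟨ι.comp tl + θ.comp (Pi.evalAddMonoidHom _ 0), ?_⟩
    rw [injective_iff_map_eq_zero]
    intro v hv
    have hv' : ι (tl v) + θ (v 0) = 0 := hv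
    have hv0 : v 0 = 0 := by
      by_contra hne
      have h1 : ¬ (p ^ 2) ∣ (v 0).val := by
        intro h
        rw [← ZMod.natCast_eq_zero_iff, ZMod.natCast_zmod_val] at h
        exact hne h
      have h2 : Nat.gcd (v 0).val (p ^ 2) ∣ p := by
        obtain ⟨k, hk, hk'⟩ := (Nat.dvd_prime_pow hp).1 (Nat.gcd_dvd_right (v 0).val (p ^ 2))
        rw [hk']
        have : k ≠ 2 := by
          intro h
          subst h
          have h5 := Nat.gcd_dvd_left (v 0).val (p ^ 2)
          rw [hk'] at h5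
          exact h1 h5
        calc p ^ k ∣ p ^ 1 := pow_dvd_pow p (by omega)
          _ = p := pow_one p
      obtain ⟨m, hm⟩ : ∃ m : ℤ, ((p : ℤ) : ZMod (p ^ 2)) = m • v 0 := by
        obtain ⟨c, hc⟩ := h2
        have h3 := Nat.gcd_eq_gcd_ab (v 0).val (p ^ 2)
        refine ⟨c * Nat.gcdA (v 0).val (p ^ 2), ?_⟩
        have h4 : (p : ℤ) = ((v 0).val * Nat.gcdA (v 0).val (p ^ 2) +
            ((p ^ 2 : ℕ) : ℤ) * Nat.gcdB (v 0).val (p ^ 2)) * c := by
          rw [← h3]
          exact_mod_cast hc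
        have h5 := congrArg (Int.cast : ℤ → ZMod (p ^ 2)) h4
        rw [h5]
        push_cast
        have h6 : ((p : ZMod (p ^ 2))) ^ 2 = 0 := by
          have := ZMod.natCast_self (p ^ 2)
          push_cast at this
          exact this
        rw [h6, ZMod.natCast_zmod_val, zsmul_eq_mul]
        push_cast
        ring
      have h3 : θ ((p : ℤ) : ZMod (p ^ 2)) = x := by
        rw [hθ1, natCast_zsmul, hy]
      rw [hm, map_zsmul, eq_neg_of_add_eq_zero_right hv', ← map_neg, ← map_zsmul] at h3
      exact hxι' _ h3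
    rw [hv0, map_zero, add_zero] at hv'
    have h1 := (injective_iff_map_eq_zero ι).1 hι _ hv'
    ext i
    refine Fin.cases ?_ (fun j => ?_) i
    · rw [hv0]
      rfl
    · exact congrFun h1 j

/-- **Groups of almost squarefree torsion**: the orders of the elements of prime power order are
bounded, and few elements of order `p` are divisible by `p` -/
theorem finite_of_bdd {G : Type u} [AddCommGroup G] (N₀ : ℕ)
    (hA : ∀ (p a : ℕ) (x : G), p.Prime → addOrderOf x = p ^ (a + 1) → p ^ (a + 1) < N₀)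
    (hB : ∀ p : ℕ, p.Prime → {x : G | p • x = 0 ∧ ∃ y, p • y = x}.Finite) :
    ∃ q : ℕ, Squarefree q ∧ {y : G | ∃ x, IsOfFinAddOrder x ∧ q • x = y}.Finite := by
  classical
  -- the exponent
  have htor : ∀ x : G, IsOfFinAddOrder x → N₀.factorial • x = 0 := by
    intro x hx
    rw [← addOrderOf_dvd_iff_nsmul_eq_zero, Nat.dvd_iff_prime_pow_dvd_dvd]
    intro p a hp hpa
    rcases Nat.eq_zero_or_pos a with rfl | ha
    · rw [pow_zero]
      exact one_dvd _
    · obtain ⟨b, hb⟩ := hpa
      have hord0 : 0 < addOrderOf x := hx.addOrderOf_pos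
      have hb0 : b ≠ 0 := by
        rintro rfl
        omega
      have h1 : addOrderOf (b • x) = p ^ (a - 1 + 1) := by
        rw [show a - 1 + 1 = a by omega, addOrderOf_nsmul_of_dvd hb0 (hb ▸ Dvd.intro_left _ rfl), hb,
          Nat.mul_div_cancel _ (Nat.pos_of_ne_zero hb0)]
      have h2 := hA p (a - 1) (b • x) hp h1
      rw [show a - 1 + 1 = a by omega] at h2
      exact Nat.dvd_factorial (pow_pos hp.pos a) h2.le
  refine ⟨primorial N₀, squarefree_primorial N₀, ?_⟩
  set P : Set G := {y : G | ∃ x, IsOfFinAddOrder x ∧ primorial N₀ • x = y} with hP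
  have hPsub : ∀ y ∈ P, ∀ y' ∈ P, y - y' ∈ P := by
    rintro y ⟨x, hx, rfl⟩ y' ⟨x', hx', rfl⟩
    refine ⟨x - x', ?_, nsmul_sub _ _ _⟩
    rw [sub_eq_add_neg]
    exact hx.add (isOfFinAddOrder_neg_iff.2 hx')
  have hPmul : ∀ y ∈ P, ∀ j : ℕ, j • y ∈ P := by
    rintro y ⟨x, hx, rfl⟩ j
    exact ⟨j • x, hx.nsmul, nsmul_left_comm _ _ _⟩
  have key : ∀ m : ℕ, m ∣ N₀.factorial → {y : G | y ∈ P ∧ m • y = 0}.Finite := by
    intro m
    induction m using Nat.strong_induction_on with
    | _ m ih =>
      intro hm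
      have hm0 : 0 < m := Nat.pos_of_dvd_of_pos hm (Nat.factorial_pos _)
      rcases Nat.lt_or_ge m 2 with h1 | h1
      · have : m = 1 := by omega
        subst this
        refine (Set.finite_singleton (0 : G)).subset ?_
        rintro y ⟨-, hy⟩
        rw [one_nsmul] at hy
        exact hy
      · set p := m.minFac with hp
        have hpp : p.Prime := Nat.minFac_prime (by omega)
        obtain ⟨m', hm'⟩ := Nat.minFac_dvd m
        rw [← hp] at hm'
        have hm'0 : 0 < m' := by
          rcases Nat.eq_zero_or_pos m' with h | h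
          · rw [h, mul_zero] at hm'
            omega
          · exact h
        have hlt : m' < m := by
          rw [hm']
          nlinarith [hpp.two_le]
        have h2 := ih m' hlt ((Dvd.intro_left p hm'.symm).trans hm)
        have hpN : p ∣ primorial N₀ := by
          have h3 : p ∣ N₀.factorial := (Nat.minFac_dvd m).trans hm
          have h4 := (Nat.Prime.dvd_factorial hpp).1 h3
          unfold primorial
          exact dvd_prod_of_mem _ (mem_filter.2 ⟨mem_range.2 (by omega), hpp⟩)
        refine Set.Finite.of_finite_fibers (fun y => p • y) ?_ ?_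
        · refine h2.subset ?_
          rintro _ ⟨y, ⟨hy, hmy⟩, rfl⟩
          refine ⟨hPmul y hy p, ?_⟩
          rw [← mul_nsmul, ← hm']
          exact hmy
        · rintro x -
          by_cases hex : ∃ y₀, y₀ ∈ P ∧ p • y₀ = x
          · obtain ⟨y₀, hy₀, hy₀x⟩ := hex
            refine ((hB p hpp).image (fun e => e + y₀)).subset ?_
            rintro y ⟨⟨hy, -⟩, hyx⟩
            refine ⟨y - y₀, ⟨?_, ?_⟩, sub_add_cancel _ _⟩
            · have : p • y = x := hyx
              rw [nsmul_sub, this, hy₀x, sub_self]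
            · obtain ⟨z, -, hz⟩ := hPsub y hy y₀ hy₀
              obtain ⟨c, hc⟩ := hpN
              refine ⟨c • z, ?_⟩
              rw [← mul_nsmul', ← hc]
              exact hz
          · refine Set.finite_empty.subset ?_
            rintro y ⟨⟨hy, -⟩, hyx⟩
            exact absurd ⟨y, hy, hyx⟩ hex
  refine (key _ dvd_rfl).subset ?_
  rintro y ⟨x, hx, rfl⟩
  refine ⟨⟨x, hx, rfl⟩, ?_⟩
  rw [nsmul_left_comm, htor x hx, smul_zero]

/-- `φ` preserves and reflects the equalities of sums of two elements of `S` -/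
def Iso2 {G H : Type*} [AddCommGroup G] [AddCommGroup H] (S : Finset G) (φ : G → H) : Prop :=
  ∀ a ∈ S, ∀ b ∈ S, ∀ c ∈ S, ∀ d ∈ S, φ a + φ b = φ c + φ d ↔ a + b = c + d

theorem Iso2.card_le {G H : Type*} [AddCommGroup G] [AddCommGroup H] [Finite H] {S : Finset G}
    {φ : G → H} (h : Iso2 S φ) : S.card ≤ Nat.card H := by
  classical
  have hinj : Set.InjOn φ S := by
    intro a ha b hb hab
    have h1 := (h a ha b hb b hb b hb).1 (by rw [hab])
    exact add_right_cancel h1
  have := Fintype.ofFinite H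
  rw [Nat.card_eq_fintype_card, ← card_univ, ← card_image_of_injOn hinj]
  exact card_le_card (subset_univ _)

/-- **All other groups have sets which need exponentially large models** -/
theorem exponential {G : Type u} [AddCommGroup G] [DecidableEq G]
    (h : ¬ ∃ q : ℕ, Squarefree q ∧ {y : G | ∃ x, IsOfFinAddOrder x ∧ q • x = y}.Finite) :
    ∃ C : ℝ, 1 ≤ C ∧ ∀ K : ℝ, 1 ≤ K → ∃ S : Finset G, S.Nonempty ∧
      ((S + S).card : ℝ) ≤ K * S.card ∧
      ∀ (H : Type v) [AddCommGroup H] [Finite H] (φ : G → H), Iso2 S φ →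
        2 ^ (K / C) / C * S.card ≤ Nat.card H := by
  classical
  have hsingle : ∀ (C K : ℝ), 1 ≤ C → 1 ≤ K → 2 ^ (K / C) / C ≤ (1 : ℝ) → ∃ S : Finset G,
      S.Nonempty ∧ ((S + S).card : ℝ) ≤ K * S.card ∧
      ∀ (H : Type v) [AddCommGroup H] [Finite H] (φ : G → H), Iso2 S φ →
        2 ^ (K / C) / C * S.card ≤ Nat.card H := by
    intro C K hC hK hCK
    refine ⟨{0}, singleton_nonempty 0, ?_, ?_⟩
    · simp only [singleton_add_singleton, card_singleton]
      push_cast
      linarith
    · intro H _ _ φ hφ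
      have h1 : (({0} : Finset G).card : ℝ) ≤ Nat.card H := by exact_mod_cast hφ.card_le
      refine le_trans ?_ h1
      have : (0 : ℝ) ≤ (({0} : Finset G).card : ℝ) := Nat.cast_nonneg _
      nlinarith
  by_cases hB : ∀ p : ℕ, p.Prime → {x : G | p • x = 0 ∧ ∃ y, p • y = x}.Finite
  · have hA : ∀ N₀ : ℕ, ∃ (p a : ℕ) (x : G), p.Prime ∧ addOrderOf x = p ^ (a + 1) ∧
        N₀ ≤ p ^ (a + 1) := by
      intro N₀
      by_contra hcon
      push Not at hcon
      exact h (finite_of_bdd N₀ hcon hB)
    refine ⟨16, by norm_num, fun K hK => ?_⟩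
    rcases lt_or_ge K 7 with hK7 | hK7
    · refine hsingle 16 K (by norm_num) hK ?_
      rw [div_le_one (by norm_num)]
      calc (2 : ℝ) ^ (K / 16) ≤ 2 ^ (1 : ℝ) :=
            Real.rpow_le_rpow_of_exponent_le (by norm_num) (by linarith)
        _ ≤ 16 := by norm_num
    · set k := ⌊(K - 3) / 4⌋₊ with hk
      have hk0 : (0 : ℝ) ≤ (K - 3) / 4 := by linarith
      have hk1 : 1 ≤ k := by
        rw [hk, Nat.le_floor_iff hk0]
        push_cast
        linarith
      have hk2 : (k : ℝ) ≤ (K - 3) / 4 := Nat.floor_le hk0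
      have hk3 : (K - 3) / 4 < k + 1 := Nat.lt_floor_add_one _
      obtain ⟨p, a, x, hp, hx, hbig⟩ := hA (2 ^ k * (16 * k ^ 2 + 4))
      obtain ⟨S, hS, hSS, hSH⟩ := lowA.{u, v} hp hx hk1 hbig
      have hSpos : (0 : ℝ) < S.card := by exact_mod_cast hS.card_pos
      refine ⟨S, hS, ?_, ?_⟩
      · have h1 : ((S + S).card : ℝ) ≤ (4 * k + 3) * S.card := by exact_mod_cast hSS
        refine h1.trans ?_
        gcongr
        linarith
      · intro H _ _ φ hφ
        have h1 : (2 : ℝ) ^ k * S.card ≤ 2 * Nat.card H := by exact_mod_cast hSH H φ hφ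
        have h2 : (2 : ℝ) ^ (K / 16) / 16 * 2 ≤ 2 ^ k := by
          have h3 : (2 : ℝ) ^ (K / 16) ≤ 2 ^ ((k : ℝ) + 3) :=
            Real.rpow_le_rpow_of_exponent_le (by norm_num) (by linarith)
          rw [Real.rpow_add (by norm_num), Real.rpow_natCast] at h3
          norm_num at h3
          linarith
        nlinarith
  · push Not at hB
    obtain ⟨p, hp, hinf⟩ := hB
    have hp2 : (2 : ℝ) ≤ p := by exact_mod_cast hp.two_le
    have hC4 : (16 : ℝ) ≤ 4 * p ^ 2 := by nlinarith
    refine ⟨4 * p ^ 2, by linarith, fun K hK => ?_⟩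
    rcases lt_or_ge K (2 * p) with hKp | hKp
    · refine hsingle _ K (by linarith) hK ?_
      rw [div_le_one (by linarith)]
      calc (2 : ℝ) ^ (K / (4 * p ^ 2)) ≤ 2 ^ (1 : ℝ) := by
            apply Real.rpow_le_rpow_of_exponent_le (by norm_num)
            rw [div_le_one (by linarith)]
            nlinarith
        _ ≤ 4 * p ^ 2 := by
            rw [Real.rpow_one]
            linarith
    · -- the largest `s` with `2 p ^ s ≤ K`
      have hex : ∃ s : ℕ, K < 2 * (p : ℝ) ^ (s + 1) := by
        obtain ⟨s, hs⟩ := pow_unbounded_of_one_lt K (show (1 : ℝ) < p by linarith)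
        refine ⟨s, ?_⟩
        have : (p : ℝ) ^ s ≤ p ^ (s + 1) := pow_le_pow_right₀ (by linarith) (by omega)
        have : (0 : ℝ) < p ^ (s + 1) := by positivity
        linarith
      set s := Nat.find hex with hs
      have hs1 : K < 2 * (p : ℝ) ^ (s + 1) := Nat.find_spec hex
      have hs0 : 1 ≤ s := by
        by_contra hcon
        have : s = 0 := by omega
        rw [this, zero_add, pow_one] at hs1
        linarith
      have hs2 : 2 * (p : ℝ) ^ s ≤ K := by
        have h1 := Nat.find_min hex (show s - 1 < s by omega)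
        rw [show s - 1 + 1 = s by omega] at h1
        linarith [not_lt.1 h1]
      set r := p ^ (s - 1) with hr
      have hrp : r * p = p ^ s := by
        rw [hr, ← pow_succ]
        congr 1
        omega
      have hsr : s ≤ r := by
        have h1 : s - 1 < p ^ (s - 1) := Nat.lt_pow_self hp.one_lt
        omega
      obtain ⟨ι, hι⟩ := embed hp hinf r
      obtain ⟨S, hS, hSS, hSH⟩ := lowB.{u, v} hp hrp hsr ι hι
      have hSpos : (0 : ℝ) < S.card := by exact_mod_cast hS.card_pos
      refine ⟨S, hS, ?_, ?_⟩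
      · have h1 : ((S + S).card : ℝ) ≤ 2 * (p : ℝ) ^ s * S.card := by exact_mod_cast hSS
        refine h1.trans ?_
        gcongr
      · intro H _ _ φ hφ
        have h1 : (p : ℝ) ^ r * S.card ≤ 2 * (p : ℝ) ^ s * Nat.card H := by
          exact_mod_cast hSH H φ hφ
        have hKpos : (0 : ℝ) < K := by linarith
        set t : ℝ := K / (4 * p ^ 2) with ht
        have hKt : K = 4 * p ^ 2 * t := by
          rw [ht]
          field_simp
        have hrt : 2 * t ≤ r := by
          have h2 : (p : ℝ) ^ (s + 1) = r * p ^ 2 := by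
            have h3 : (r : ℝ) * p = p ^ s := by exact_mod_cast hrp
            rw [pow_succ, ← h3]
            ring
          rw [h2] at hs1
          have h3 : 4 * (p : ℝ) ^ 2 * t < 2 * (r * p ^ 2) := by rw [← hKt]; exact hs1
          have h4 : (0 : ℝ) < p ^ 2 := by positivity
          have h5 : (2 * t - r) * (2 * p ^ 2) < 0 := by nlinarith
          by_contra hcon
          push Not at hcon
          have : 0 ≤ (2 * t - r) * (2 * (p : ℝ) ^ 2) := by
            apply mul_nonneg _ (by positivity)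
            linarith
          linarith
        have h2 : (2 : ℝ) ^ t * 2 ^ t ≤ (p : ℝ) ^ r := by
          rw [← Real.rpow_add (by norm_num), ← two_mul]
          calc (2 : ℝ) ^ (2 * t) ≤ 2 ^ (r : ℝ) :=
                Real.rpow_le_rpow_of_exponent_le (by norm_num) hrt
            _ = 2 ^ r := Real.rpow_natCast _ _
            _ ≤ (p : ℝ) ^ r := pow_le_pow_left₀ (by norm_num) hp2 _
        have ht0 : 0 ≤ t := by positivity
        have h3 : t ≤ (2 : ℝ) ^ t := by
          rcases lt_or_ge t 1 with h | h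
          · have := Real.one_le_rpow (show (1 : ℝ) ≤ 2 by norm_num) ht0
            linarith
          · have h6 := one_add_mul_self_le_rpow_one_add (show (-1 : ℝ) ≤ 1 by norm_num) h
            norm_num at h6
            linarith
        have h4 : (0 : ℝ) < 2 ^ t := by positivity
        have h5 : (2 : ℝ) ^ t * K ≤ 4 * (p : ℝ) ^ 2 * (p : ℝ) ^ r := by
          calc (2 : ℝ) ^ t * K = (2 : ℝ) ^ t * (4 * (p : ℝ) ^ 2 * t) := by rw [← hKt]
            _ = 4 * (p : ℝ) ^ 2 * ((2 : ℝ) ^ t * t) := by ring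
            _ ≤ 4 * (p : ℝ) ^ 2 * ((2 : ℝ) ^ t * (2 : ℝ) ^ t) := by gcongr
            _ ≤ 4 * (p : ℝ) ^ 2 * (p : ℝ) ^ r :=
              mul_le_mul_of_nonneg_left h2 (by positivity)
        have h6 : (2 : ℝ) ^ t / (4 * (p : ℝ) ^ 2) * K ≤ (p : ℝ) ^ r := by
          rw [div_mul_eq_mul_div, div_le_iff₀ (by positivity)]
          linarith
        have h7 : (2 : ℝ) ^ t / (4 * (p : ℝ) ^ 2) * S.card * K ≤ Nat.card H * K := by
          calc (2 : ℝ) ^ t / (4 * (p : ℝ) ^ 2) * S.card * K =
              (2 : ℝ) ^ t / (4 * (p : ℝ) ^ 2) * K * S.card := by ring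
            _ ≤ (p : ℝ) ^ r * S.card := mul_le_mul_of_nonneg_right h6 hSpos.le
            _ ≤ 2 * (p : ℝ) ^ s * Nat.card H := h1
            _ ≤ K * Nat.card H := mul_le_mul_of_nonneg_right hs2 (Nat.cast_nonneg _)
            _ = _ := by ring
        exact le_of_mul_le_mul_right h7 hKpos

end Pool.Agent.H602.GM
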